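import Pool.Agent.H852R2.DM.S.COUNTW

/-!
Project DM, task WNUM: the proportion of permutations with an orbit of weight in the window.
-/

namespace DM852
open RC14 RC852 Finset Filter Equiv

namespace WNUM

open Classical in
theorem card_sign {D : Type} [Fintype D] (hk : 2 ≤ Fintype.card D) (s : ℤˣ) :
    (Nat.card {ψ : Perm D // Perm.sign ψ = s} : ℝ) = (Fintype.card D).factorial / 2 := by
  haveI : Nontrivial D := Fintype.one_lt_card_iff_nontrivial.1 hk
  have h0 : ∀ t : ℤˣ, Nat.card {ψ : Perm D // Perm.sign ψ = t} =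
      #{ψ : Perm D | Perm.sign ψ = t} := by
    intro t
    rw [Nat.card_eq_fintype_card, Fintype.card_subtype]
  have h1 : ∀ t : ℤˣ, #{ψ : Perm D | Perm.sign ψ = t} = #{ψ : Perm D | Perm.sign ψ = 1} := by
    intro t
    exact MonoidHom.card_fiber_eq_of_mem_range (Perm.sign : Perm D →* ℤˣ)
      (Perm.sign_surjective D t) (Perm.sign_surjective D 1)
  have h2 : ∑ t : ℤˣ, #{ψ : Perm D | Perm.sign ψ = t} = (Fintype.card D).factorial := by
    have := Finset.card_eq_sum_card_fiberwise (s := (univ : Finset (Perm D)))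
      (t := (univ : Finset ℤˣ)) (f := fun ψ => Perm.sign ψ) (fun _ _ => mem_univ _)
    rw [← this, Finset.card_univ, Fintype.card_perm]
  have h3 : 2 * #{ψ : Perm D | Perm.sign ψ = s} = (Fintype.card D).factorial := by
    rw [← h2, Finset.sum_congr rfl (fun t _ => h1 t), h1 s, Finset.sum_const, Finset.card_univ]
    simp [Fintype.card_units_int]
  rw [h0 s, eq_div_iff (by norm_num), ← h3]
  push_cast
  ring

/-- harmonic sums from above -/
theorem harm_upper (T : Finset ℕ) (A B : ℝ) (hA : 0 < A) (hAB : A ≤ B)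
    (hT : ∀ j ∈ T, A ≤ j ∧ (j : ℝ) ≤ B) :
    ∑ j ∈ T, 1 / (j : ℝ) ≤ 1 / A + Real.log (B / A) := by
  have hlog : 0 ≤ Real.log (B / A) := Real.log_nonneg ((one_le_div hA).2 hAB)
  have hc : 0 < ⌈A⌉₊ := Nat.ceil_pos.2 hA
  have key : ∀ J : ℕ, ⌈A⌉₊ ≤ J → ∑ j ∈ Icc ⌈A⌉₊ J, 1 / (j : ℝ) ≤
      1 / (⌈A⌉₊ : ℝ) + (Real.log J - Real.log ⌈A⌉₊) := by
    intro J hJ
    induction J, hJ using Nat.le_induction with
    | base => simp
    | succ J hJ ih =>
      rw [Finset.sum_Icc_succ_top (by omega)]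
      have hJ0 : (0 : ℝ) < J := by exact_mod_cast lt_of_lt_of_le hc hJ
      have h1 : 1 / ((J + 1 : ℕ) : ℝ) ≤ Real.log ((J + 1 : ℕ) : ℝ) - Real.log J := by
        rw [← Real.log_div (by positivity) (by positivity)]
        have h2 := Real.one_sub_inv_le_log_of_pos (x := ((J + 1 : ℕ) : ℝ) / J) (by positivity)
        refine le_trans (le_of_eq ?_) h2
        push_cast
        field_simp
        ring
      linarith
  by_cases hB : ⌈A⌉₊ ≤ ⌊B⌋₊
  · have h1 : T ⊆ Icc ⌈A⌉₊ ⌊B⌋₊ := by
      intro j hj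
      rw [Finset.mem_Icc]
      exact ⟨Nat.ceil_le.2 (hT j hj).1, Nat.le_floor (hT j hj).2⟩
    have h2 : ∑ j ∈ T, 1 / (j : ℝ) ≤ ∑ j ∈ Icc ⌈A⌉₊ ⌊B⌋₊, 1 / (j : ℝ) :=
      Finset.sum_le_sum_of_subset_of_nonneg h1 (fun _ _ _ => by positivity)
    have h3 := key ⌊B⌋₊ hB
    have hcA : A ≤ (⌈A⌉₊ : ℝ) := Nat.le_ceil A
    have h4 : 1 / (⌈A⌉₊ : ℝ) ≤ 1 / A := one_div_le_one_div_of_le hA hcA
    have hf0 : (0 : ℝ) < ⌊B⌋₊ := by exact_mod_cast lt_of_lt_of_le hc hB
    have h5 : Real.log ⌊B⌋₊ ≤ Real.log B :=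
      Real.log_le_log hf0 (Nat.floor_le (hA.le.trans hAB))
    have h6 : Real.log A ≤ Real.log ⌈A⌉₊ := Real.log_le_log hA hcA
    rw [Real.log_div (by linarith) hA.ne']
    linarith
  · have h1 : T = ∅ := by
      rw [Finset.eq_empty_iff_forall_notMem]
      intro j hj
      apply hB
      exact (Nat.ceil_le.2 (hT j hj).1).trans (Nat.le_floor (hT j hj).2)
    rw [h1, Finset.sum_empty]
    positivity

/-- lower bound of `pW` -/
theorem pW_lower (a : ℝ) (ha : 0 < a) (ha1 : a ≤ 1 / 4) (n : ℕ) (hn : 0 < n) :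
    Real.log (1 - a / 2) - Real.log (1 - a) - 2 / n ≤ pW a n := by
  classical
  have hn' : (0 : ℝ) < n := by exact_mod_cast hn
  set x : ℝ := (1 - a) * n with hx
  set y : ℝ := (1 - a / 2) * n with hy
  have hx0 : 0 < x := by
    apply mul_pos _ hn'
    linarith
  have hxy : x ≤ y := by
    apply mul_le_mul_of_nonneg_right _ hn'.le
    linarith
  have hyn : y ≤ n := by
    rw [hy]
    nlinarith
  have hc : 0 < ⌈x⌉₊ := Nat.ceil_pos.2 hx0
  have key : ∀ J : ℕ, ⌈x⌉₊ ≤ J + 1 → Real.log (J + 1) - Real.log ⌈x⌉₊ ≤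
      ∑ j ∈ Icc ⌈x⌉₊ J, 1 / (j : ℝ) := by
    intro J hJ
    induction J with
    | zero =>
      have : ⌈x⌉₊ = 1 := by omega
      rw [this]
      simp
    | succ J ih =>
      by_cases h : ⌈x⌉₊ ≤ J + 1
      · rw [Finset.sum_Icc_succ_top h]
        have h1 := ih h
        have h2 : Real.log (((J + 1 : ℕ) : ℝ) + 1) - Real.log ((J : ℝ) + 1) ≤
            1 / ((J + 1 : ℕ) : ℝ) := by
          rw [← Real.log_div (by positivity) (by positivity)]
          have h3 := Real.log_le_sub_one_of_pos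
            (x := (((J + 1 : ℕ) : ℝ) + 1) / ((J : ℝ) + 1)) (by positivity)
          refine h3.trans (le_of_eq ?_)
          push_cast
          field_simp
          ring
        linarith
      · have he : ⌈x⌉₊ = J + 1 + 1 := by omega
        rw [he]
        simp
  have hJ : ⌈x⌉₊ ≤ ⌊y⌋₊ + 1 := by
    rw [Nat.ceil_le]
    have := Nat.lt_floor_add_one y
    push_cast
    linarith
  have h1 := key ⌊y⌋₊ hJ
  have hset : (Finset.range (n + 1)).filter (InW a n) = Icc ⌈x⌉₊ ⌊y⌋₊ := by
    ext l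
    rw [Finset.mem_filter, Finset.mem_range, Finset.mem_Icc, Nat.ceil_le,
      Nat.le_floor_iff (hx0.le.trans hxy)]
    unfold InW
    constructor
    · rintro ⟨_, h2, h3⟩
      exact ⟨h2, h3⟩
    · rintro ⟨h2, h3⟩
      refine ⟨?_, h2, h3⟩
      have : (l : ℝ) ≤ n := h3.trans hyn
      have : l ≤ n := by exact_mod_cast this
      omega
  have hpW : pW a n = ∑ j ∈ Icc ⌈x⌉₊ ⌊y⌋₊, 1 / (j : ℝ) := by
    unfold pW
    rw [← hset]
  rw [hpW]
  refine le_trans ?_ h1
  have h2 : Real.log y ≤ Real.log ((⌊y⌋₊ : ℝ) + 1) :=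
    Real.log_le_log (hx0.trans_le hxy) (Nat.lt_floor_add_one y).le
  have h3 : Real.log (⌈x⌉₊ : ℝ) ≤ Real.log x + 1 / x := by
    have h4 : (⌈x⌉₊ : ℝ) ≤ x + 1 := (Nat.ceil_lt_add_one hx0.le).le
    have h5 : Real.log (⌈x⌉₊ : ℝ) ≤ Real.log (x + 1) :=
      Real.log_le_log (by exact_mod_cast hc) h4
    have h6 : Real.log (x + 1) - Real.log x ≤ 1 / x := by
      rw [← Real.log_div (by positivity) hx0.ne']
      have h7 := Real.log_le_sub_one_of_pos (x := (x + 1) / x) (by positivity)
      refine h7.trans (le_of_eq ?_)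
      field_simp
      ring
    linarith
  have h4 : 1 / x ≤ 2 / n := by
    rw [div_le_div_iff₀ hx0 hn', hx]
    nlinarith
  have h5 : Real.log y = Real.log (1 - a / 2) + Real.log n :=
    Real.log_mul (by linarith) hn'.ne'
  have h6 : Real.log x = Real.log (1 - a) + Real.log n :=
    Real.log_mul (by linarith) hn'.ne'
  linarith

/-- the logarithmic inequality -/
theorem log_ineq (a δ Z : ℝ) (ha : 0 < a) (ha1 : a ≤ 1 / 4) (hδ : 0 ≤ δ) (hδ1 : δ ≤ 1 / 5)
    (hZ : 0 ≤ Z) (hZ1 : Z ≤ 1 / 2) :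
    Real.log (((1 - a / 2) + δ) / (1 - Z) / ((1 - a) - δ)) ≤
      Real.log (1 - a / 2) - Real.log (1 - a) + 4 * δ + 2 * Z := by
  have h1 : (0 : ℝ) < 1 - a / 2 := by linarith
  have h2 : (0 : ℝ) < 1 - a := by linarith
  have h3 : (0 : ℝ) < 1 - Z := by linarith
  have h4 : (0 : ℝ) < (1 - a) - δ := by linarith
  have h5 : (0 : ℝ) < (1 - a / 2) + δ := by linarith
  rw [Real.log_div (by positivity) h4.ne', Real.log_div h5.ne' h3.ne']
  have e1 : Real.log ((1 - a / 2) + δ) - Real.log (1 - a / 2) ≤ 4 / 3 * δ := by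
    rw [← Real.log_div h5.ne' h1.ne']
    have h := Real.log_le_sub_one_of_pos (x := ((1 - a / 2) + δ) / (1 - a / 2)) (by positivity)
    refine h.trans ?_
    have : ((1 - a / 2) + δ) / (1 - a / 2) - 1 = δ / (1 - a / 2) := by
      rw [add_div, div_self h1.ne']
      ring
    rw [this, div_le_iff₀ h1]
    nlinarith
  have e2 : - Real.log (1 - Z) ≤ 2 * Z := by
    have h := Real.one_sub_inv_le_log_of_pos h3
    have : (1 - Z)⁻¹ ≤ 1 + 2 * Z := by
      rw [inv_le_iff_one_le_mul₀ h3]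
      nlinarith
    linarith
  have e3 : Real.log (1 - a) - Real.log ((1 - a) - δ) ≤ 8 / 3 * δ := by
    rw [← Real.log_div h2.ne' h4.ne']
    have h := Real.log_le_sub_one_of_pos (x := (1 - a) / ((1 - a) - δ)) (by positivity)
    refine h.trans ?_
    have : (1 - a) / ((1 - a) - δ) - 1 = δ / ((1 - a) - δ) := by
      rw [div_sub_one h4.ne']
      ring
    rw [this, div_le_iff₀ h4]
    nlinarith
  linarith

/-- one size of the orbit -/
theorem term_le (k j : ℕ) (hj : 1 ≤ j) (hjk : j ≤ k) (m x : ℝ) (hx0 : 0 ≤ x) (hx1 : x ≤ 1)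
    (hm : m ≤ (k.choose j : ℝ) * x) :
    m * ((if j + 2 ≤ k then 1 / 2 else 1) * ((j - 1).factorial * (k - j).factorial : ℝ)) ≤
      (k.factorial : ℝ) / 2 * (x / j + (if j + 2 ≤ k then 0 else 1 / (j : ℝ))) := by
  have hj0 : (0 : ℝ) < j := by exact_mod_cast hj
  have hfac : (k.choose j : ℝ) * ((j - 1).factorial * (k - j).factorial : ℝ) =
      (k.factorial : ℝ) / j := by
    rw [eq_div_iff hj0.ne']
    have h1 := Nat.choose_mul_factorial_mul_factorial hjk
    have h2 : j.factorial = j * (j - 1).factorial := (Nat.mul_factorial_pred (by omega)).symm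
    rw [← h1, h2]
    push_cast
    ring
  have hpos : (0 : ℝ) ≤ ((j - 1).factorial * (k - j).factorial : ℝ) := by positivity
  have hk0 : (0 : ℝ) < k.factorial := by exact_mod_cast Nat.factorial_pos k
  have h1 : m * ((j - 1).factorial * (k - j).factorial : ℝ) ≤ (k.factorial : ℝ) / j * x := by
    calc m * ((j - 1).factorial * (k - j).factorial : ℝ)
        ≤ ((k.choose j : ℝ) * x) * ((j - 1).factorial * (k - j).factorial : ℝ) :=
          mul_le_mul_of_nonneg_right hm hpos
      _ = ((k.choose j : ℝ) * ((j - 1).factorial * (k - j).factorial : ℝ)) * x := by ring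
      _ = (k.factorial : ℝ) / j * x := by rw [hfac]
  split_ifs with h
  · calc m * (1 / 2 * ((j - 1).factorial * (k - j).factorial : ℝ))
        = 1 / 2 * (m * ((j - 1).factorial * (k - j).factorial : ℝ)) := by ring
      _ ≤ 1 / 2 * ((k.factorial : ℝ) / j * x) := by linarith
      _ = (k.factorial : ℝ) / 2 * (x / j + 0) := by ring
  · calc m * (1 * ((j - 1).factorial * (k - j).factorial : ℝ))
        = m * ((j - 1).factorial * (k - j).factorial : ℝ) := by ring
      _ ≤ (k.factorial : ℝ) / j * x := h1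
      _ = (k.factorial : ℝ) / 2 * (x / j + x * (1 / (j : ℝ))) := by ring
      _ ≤ (k.factorial : ℝ) / 2 * (x / j + 1 / (j : ℝ)) := by
          apply mul_le_mul_of_nonneg_left _ (by positivity)
          have : x * (1 / (j : ℝ)) ≤ 1 * (1 / (j : ℝ)) :=
            mul_le_mul_of_nonneg_right hx1 (by positivity)
          linarith

open Classical in
/-- the number of permutations in terms of the sizes of the orbits -/
theorem count_le {D : Type} [Fintype D] (ω : D → ℕ) (W : ℕ → Prop) (s : ℤˣ)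
    (hk : 2 ≤ Fintype.card D) (M : Finset ℕ) (q : ℝ) (hq0 : 0 ≤ q) (hq1 : q ≤ 1)
    (hM : ∀ j, 1 ≤ j → j ≤ Fintype.card D → j ∉ M →
      (#{S : Finset D | S.card = j ∧ W (∑ d ∈ S, ω d)} : ℝ) ≤
        ((Fintype.card D).choose j : ℝ) * ((j : ℝ) / Fintype.card D * q)) :
    (Nat.card {ψ : Perm D // Perm.sign ψ = s ∧
        ∃ d, W (∑ d' with ψ.SameCycle d d', ω d')} : ℝ) ≤
      (∑ j ∈ M.filter (fun j => 1 ≤ j ∧ j ≤ Fintype.card D), 1 / (j : ℝ) + q +
        4 / Fintype.card D) *
        Nat.card {ψ : Perm D // Perm.sign ψ = s} := by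
  set k := Fintype.card D with hkdef
  have hk0 : (0 : ℝ) < k := by exact_mod_cast (by omega : 0 < k)
  rw [card_sign hk s]
  refine (COUNTW ω W s).trans ?_
  have hreg : ∑ S : Finset D with S.Nonempty ∧ W (∑ d ∈ S, ω d),
        (if S.card + 2 ≤ k then 1 / 2 else 1) *
          ((S.card - 1).factorial * (k - S.card).factorial : ℝ) =
      ∑ j ∈ Icc 1 k, (#{S : Finset D | S.card = j ∧ W (∑ d ∈ S, ω d)} : ℝ) *
        ((if j + 2 ≤ k then 1 / 2 else 1) * ((j - 1).factorial * (k - j).factorial : ℝ)) := by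
    rw [← Finset.sum_fiberwise_of_maps_to (t := Icc 1 k) (g := fun S : Finset D => S.card)]
    · apply Finset.sum_congr rfl
      intro j hj
      rw [Finset.mem_Icc] at hj
      have hset : (Finset.univ.filter (fun S : Finset D => S.Nonempty ∧ W (∑ d ∈ S, ω d))).filter
          (fun S : Finset D => S.card = j) =
          Finset.univ.filter (fun S : Finset D => S.card = j ∧ W (∑ d ∈ S, ω d)) := by
        ext S
        simp only [Finset.mem_filter, Finset.mem_univ, true_and]
        constructor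
        · rintro ⟨⟨_, h2⟩, h3⟩
          exact ⟨h3, h2⟩
        · rintro ⟨h1, h2⟩
          refine ⟨⟨?_, h2⟩, h1⟩
          rw [← Finset.card_pos]
          omega
      rw [hset, ← nsmul_eq_mul, ← Finset.sum_const]
      apply Finset.sum_congr rfl
      intro S hS
      rw [Finset.mem_filter] at hS
      rw [hS.2.1]
    · intro S hS
      rw [Finset.mem_filter] at hS
      rw [Finset.mem_Icc]
      exact ⟨Finset.card_pos.2 hS.2.1, Finset.card_le_univ S⟩
  rw [hreg]
  have hterm : ∀ j ∈ Icc 1 k, (#{S : Finset D | S.card = j ∧ W (∑ d ∈ S, ω d)} : ℝ) *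
        ((if j + 2 ≤ k then 1 / 2 else 1) * ((j - 1).factorial * (k - j).factorial : ℝ)) ≤
      (k.factorial : ℝ) / 2 * ((if j ∈ M then 1 / (j : ℝ) else 0) + q / k +
        (if j + 2 ≤ k then 0 else 1 / (j : ℝ))) := by
    intro j hj
    rw [Finset.mem_Icc] at hj
    have hj0 : (0 : ℝ) < j := by exact_mod_cast hj.1
    have hkf : (0 : ℝ) ≤ (k.factorial : ℝ) / 2 := by positivity
    by_cases hjM : j ∈ M
    · have h1 : (#{S : Finset D | S.card = j ∧ W (∑ d ∈ S, ω d)} : ℝ) ≤ (k.choose j : ℝ) * 1 := by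
        rw [mul_one]
        have h2 : #{S : Finset D | S.card = j ∧ W (∑ d ∈ S, ω d)} ≤
            #(Finset.powersetCard j (univ : Finset D)) := by
          apply Finset.card_le_card
          intro S hS
          rw [Finset.mem_filter] at hS
          rw [Finset.mem_powersetCard]
          exact ⟨Finset.subset_univ _, hS.2.1⟩
        rw [Finset.card_powersetCard, Finset.card_univ] at h2
        exact_mod_cast h2
      refine (term_le k j hj.1 hj.2 _ 1 zero_le_one le_rfl h1).trans ?_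
      apply mul_le_mul_of_nonneg_left _ hkf
      rw [if_pos hjM]
      have : 0 ≤ q / k := by positivity
      linarith
    · have h1 := hM j hj.1 hj.2 hjM
      have hx1 : (j : ℝ) / k * q ≤ 1 := by
        have h2 : (j : ℝ) / k ≤ 1 := by
          rw [div_le_one hk0]
          exact_mod_cast hj.2
        calc (j : ℝ) / k * q ≤ 1 * 1 := mul_le_mul h2 hq1 hq0 zero_le_one
          _ = 1 := one_mul 1
      refine (term_le k j hj.1 hj.2 _ _ (by positivity) hx1 h1).trans ?_
      apply mul_le_mul_of_nonneg_left _ hkf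
      rw [if_neg hjM]
      have : (j : ℝ) / k * q / j = q / k := by
        field_simp
      rw [this]
      linarith
  refine (Finset.sum_le_sum hterm).trans ?_
  rw [← Finset.mul_sum, mul_comm]
  apply mul_le_mul_of_nonneg_right _ (by positivity)
  rw [Finset.sum_add_distrib, Finset.sum_add_distrib]
  have e1 : ∑ j ∈ Icc 1 k, (if j ∈ M then 1 / (j : ℝ) else 0) =
      ∑ j ∈ M.filter (fun j => 1 ≤ j ∧ j ≤ k), 1 / (j : ℝ) := by
    rw [← Finset.sum_filter]
    apply Finset.sum_congr _ (fun _ _ => rfl)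
    ext j
    simp only [Finset.mem_filter, Finset.mem_Icc]
    tauto
  have e2 : ∑ _j ∈ Icc 1 k, q / (k : ℝ) = q := by
    rw [Finset.sum_const, Nat.card_Icc, nsmul_eq_mul]
    simp only [Nat.add_sub_cancel]
    field_simp
  have e3 : ∑ j ∈ Icc 1 k, (if j + 2 ≤ k then 0 else 1 / (j : ℝ)) ≤ 4 / k := by
    have h1 : ∀ j ∈ Icc 1 k, (if j + 2 ≤ k then (0 : ℝ) else 1 / (j : ℝ)) =
        if ¬ (j + 2 ≤ k) then 1 / (j : ℝ) else 0 := by
      intro j _
      split_ifs <;> rfl
    rw [Finset.sum_congr rfl h1, ← Finset.sum_filter]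
    have h2 : (Icc 1 k).filter (fun j => ¬ (j + 2 ≤ k)) ⊆ {k - 1, k} := by
      intro j hj
      rw [Finset.mem_filter, Finset.mem_Icc] at hj
      rw [Finset.mem_insert, Finset.mem_singleton]
      omega
    calc ∑ j ∈ (Icc 1 k).filter (fun j => ¬ (j + 2 ≤ k)), 1 / (j : ℝ)
        ≤ ∑ j ∈ (Icc 1 k).filter (fun j => ¬ (j + 2 ≤ k)), 2 / (k : ℝ) := by
          apply Finset.sum_le_sum
          intro j hj
          rw [Finset.mem_filter, Finset.mem_Icc] at hj
          have hj0 : (0 : ℝ) < j := by exact_mod_cast hj.1.1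
          rw [div_le_div_iff₀ hj0 hk0]
          have : k ≤ 2 * j := by omega
          have : (k : ℝ) ≤ 2 * j := by exact_mod_cast this
          linarith
      _ ≤ ∑ j ∈ ({k - 1, k} : Finset ℕ), 2 / (k : ℝ) := by
          apply Finset.sum_le_sum_of_subset_of_nonneg h2
          intro _ _ _
          positivity
      _ ≤ 4 / k := by
          rw [Finset.sum_const, nsmul_eq_mul]
          have h3 : (#({k - 1, k} : Finset ℕ) : ℝ) ≤ 2 := by
            exact_mod_cast Finset.card_le_two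
          calc (#({k - 1, k} : Finset ℕ) : ℝ) * (2 / (k : ℝ)) ≤ 2 * (2 / (k : ℝ)) :=
                mul_le_mul_of_nonneg_right h3 (by positivity)
            _ = 4 / k := by ring
  rw [e1, e2]
  linarith

end WNUM

open Classical in
/-- for weights with small `∑ ω²/n²` and total weight close to `n`, the proportion of
permutations with an orbit of weight in the window is at most `pW + small` -/
theorem WNUM (a : ℝ) (ha : 0 < a) (ha1 : a ≤ 1 / 4) : ∃ C : ℝ, 0 < C ∧ ∀ᶠ n : ℕ in atTop,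
    ∀ (D : Type) [Fintype D] (ω : D → ℕ) (s : ℤˣ) (Z : ℝ), 0 ≤ Z →
      a / 2 * n ≤ (Fintype.card D : ℝ) → (Fintype.card D : ℝ) ≤ a * n →
      ∑ d, (ω d : ℝ) ≤ n → (n : ℝ) - ∑ d, (ω d : ℝ) ≤ n * Z →
      ∑ d, (ω d : ℝ) ^ 2 ≤ (n : ℝ) ^ 2 * Z →
      (Nat.card {ψ : Perm D // Perm.sign ψ = s ∧
          ∃ d, InW a n (∑ d' with ψ.SameCycle d d', ω d')} : ℝ) ≤
        (pW a n + C * (Z ^ (1 / 3 : ℝ) + Z + 1 / n)) *
          Nat.card {ψ : Perm D // Perm.sign ψ = s} := by
  refine ⟨1000 + 20 / a, by positivity, ?_⟩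
  filter_upwards [Filter.eventually_ge_atTop (max 10 ⌈4 / a⌉₊)] with n hn D _ ω s Z hZ hk1 hk2
    hΩ1 hΩ2 hsq
  have hn10 : (10 : ℝ) ≤ n := by exact_mod_cast (le_max_left _ _).trans hn
  have hn0 : (0 : ℝ) < n := by linarith
  have hn0' : 0 < n := by exact_mod_cast hn0
  have hna : 4 / a ≤ n := (Nat.le_ceil _).trans (by exact_mod_cast (le_max_right _ _).trans hn)
  have hna' : 4 ≤ a * n := by
    rw [div_le_iff₀ ha] at hna
    linarith
  set k := Fintype.card D with hkdef
  have hk2r : (2 : ℝ) ≤ k := by linarith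
  have hk : 2 ≤ k := by exact_mod_cast hk2r
  have hk0 : (0 : ℝ) < k := by linarith
  have hpW0 : 0 ≤ pW a n := Finset.sum_nonneg (fun _ _ => by positivity)
  have hN0 : (0 : ℝ) ≤ Nat.card {ψ : Perm D // Perm.sign ψ = s} := by positivity
  set q : ℝ := Z ^ (1 / 3 : ℝ) with hq
  have hq0 : 0 ≤ q := Real.rpow_nonneg hZ _
  have hq3 : q ^ 3 = Z := by
    rw [hq, ← Real.rpow_natCast, ← Real.rpow_mul hZ]
    norm_num
  by_cases hZs : 1 / 1000 ≤ Z
  · -- trivial case
    have h1 : (Nat.card {ψ : Perm D // Perm.sign ψ = s ∧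
          ∃ d, InW a n (∑ d' with ψ.SameCycle d d', ω d')} : ℝ) ≤
        Nat.card {ψ : Perm D // Perm.sign ψ = s} := by
      have : Nat.card {ψ : Perm D // Perm.sign ψ = s ∧
          ∃ d, InW a n (∑ d' with ψ.SameCycle d d', ω d')} ≤
        Nat.card {ψ : Perm D // Perm.sign ψ = s} :=
        Nat.card_le_card_of_injective (fun ψ => ⟨ψ.1, ψ.2.1⟩)
          (fun x y h => Subtype.ext (congrArg (fun z => z.1) h))
      exact_mod_cast this
    refine h1.trans ?_
    have h2 : 1 ≤ pW a n + (1000 + 20 / a) * (q + Z + 1 / n) := by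
      have h3 : (1000 : ℝ) * (1 / 1000) ≤ (1000 + 20 / a) * (q + Z + 1 / n) := by
        apply mul_le_mul _ _ (by norm_num) (by positivity)
        · have : 0 ≤ 20 / a := by positivity
          linarith
        · have : (0 : ℝ) ≤ 1 / n := by positivity
          linarith
      linarith
    calc (Nat.card {ψ : Perm D // Perm.sign ψ = s} : ℝ)
        = 1 * Nat.card {ψ : Perm D // Perm.sign ψ = s} := (one_mul _).symm
      _ ≤ _ := mul_le_mul_of_nonneg_right h2 hN0
  · push Not at hZs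
    have hq1 : q ≤ 1 / 10 := by
      by_contra hcon
      push Not at hcon
      have h1 : (1 / 10 : ℝ) ^ 3 < q ^ 3 := pow_lt_pow_left₀ hcon (by norm_num) (by norm_num)
      rw [hq3] at h1
      norm_num at h1
      linarith
    set δ : ℝ := q + 1 / n with hδ
    set Δ : ℝ := n * δ with hΔ
    have h1n : (1 : ℝ) / n ≤ 1 / 10 := one_div_le_one_div_of_le (by norm_num) hn10
    have h1n0 : (0 : ℝ) < 1 / n := by positivity
    have hδ0 : 0 < δ := by linarith
    have hδ1 : δ ≤ 1 / 5 := by linarith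
    have hΔ0 : 0 < Δ := mul_pos hn0 hδ0
    set Ω : ℝ := ∑ d, (ω d : ℝ) with hΩ
    have hΩpos : 0 < Ω := by nlinarith
    -- the sizes whose mean weight is near the window
    set M : Finset ℕ := (range (k + 1)).filter (fun j : ℕ => (1 - a) * n - Δ < (j : ℝ) / k * Ω ∧
      (j : ℝ) / k * Ω < (1 - a / 2) * n + Δ) with hMdef
    have hM : ∀ j, 1 ≤ j → j ≤ k → j ∉ M →
        (#{S : Finset D | S.card = j ∧ InW a n (∑ d ∈ S, ω d)} : ℝ) ≤
          (k.choose j : ℝ) * ((j : ℝ) / k * q) := by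
      intro j hj1 hjk hjM
      have hdev : (j : ℝ) / k * Ω ≤ (1 - a) * n - Δ ∨ (1 - a / 2) * n + Δ ≤ (j : ℝ) / k * Ω := by
        by_contra hcon
        push Not at hcon
        apply hjM
        rw [hMdef, Finset.mem_filter, Finset.mem_range]
        exact ⟨by omega, hcon.1, hcon.2⟩
      have h1 := CHEBW ω j hjk Δ hΔ0
      have h2 : (#{S : Finset D | S.card = j ∧ InW a n (∑ d ∈ S, ω d)} : ℝ) ≤
          (#{S : Finset D | S.card = j ∧
            Δ ≤ |∑ d ∈ S, (ω d : ℝ) - (j : ℝ) / Fintype.card D * ∑ d, (ω d : ℝ)|} : ℝ) := by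
        have : #{S : Finset D | S.card = j ∧ InW a n (∑ d ∈ S, ω d)} ≤
            #{S : Finset D | S.card = j ∧
              Δ ≤ |∑ d ∈ S, (ω d : ℝ) - (j : ℝ) / Fintype.card D * ∑ d, (ω d : ℝ)|} := by
          apply Finset.card_le_card
          intro S hS
          rw [Finset.mem_filter] at hS ⊢
          refine ⟨hS.1, hS.2.1, ?_⟩
          have h3 := hS.2.2
          unfold InW at h3
          push_cast at h3
          rw [← hΩ, ← hkdef]
          rcases hdev with h4 | h4
          · exact le_trans (by linarith [h3.1]) (le_abs_self _)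
          · exact le_trans (by linarith [h3.2]) (neg_le_abs _)
        exact_mod_cast this
      have h3 : (n : ℝ) ^ 2 * Z ≤ q * Δ ^ 2 := by
        have h4 : n * q ≤ Δ := by
          rw [hΔ, hδ]
          apply mul_le_mul_of_nonneg_left _ hn0.le
          linarith
        have h5 : (n * q) ^ 2 ≤ Δ ^ 2 := pow_le_pow_left₀ (by positivity) h4 2
        calc (n : ℝ) ^ 2 * Z = q * (n * q) ^ 2 := by rw [← hq3]; ring
          _ ≤ q * Δ ^ 2 := mul_le_mul_of_nonneg_left h5 hq0
      have h6 : (#{S : Finset D | S.card = j ∧ InW a n (∑ d ∈ S, ω d)} : ℝ) * Δ ^ 2 ≤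
          ((k.choose j : ℝ) * ((j : ℝ) / k * q)) * Δ ^ 2 := by
        calc (#{S : Finset D | S.card = j ∧ InW a n (∑ d ∈ S, ω d)} : ℝ) * Δ ^ 2
            ≤ (#{S : Finset D | S.card = j ∧
              Δ ≤ |∑ d ∈ S, (ω d : ℝ) - (j : ℝ) / Fintype.card D * ∑ d, (ω d : ℝ)|} : ℝ) * Δ ^ 2 :=
              mul_le_mul_of_nonneg_right h2 (by positivity)
          _ ≤ (k.choose j : ℝ) * ((j : ℝ) / k * ∑ d, (ω d : ℝ) ^ 2) := h1
          _ ≤ (k.choose j : ℝ) * ((j : ℝ) / k * (q * Δ ^ 2)) := by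
              apply mul_le_mul_of_nonneg_left _ (by positivity)
              apply mul_le_mul_of_nonneg_left (hsq.trans h3) (by positivity)
          _ = ((k.choose j : ℝ) * ((j : ℝ) / k * q)) * Δ ^ 2 := by ring
      exact le_of_mul_le_mul_right h6 (by positivity)
    have hmain := WNUM.count_le ω (InW a n) s hk M q hq0 (by linarith) hM
    refine hmain.trans (mul_le_mul_of_nonneg_right ?_ hN0)
    -- the harmonic sum
    set A : ℝ := ((1 - a) - δ) * k with hA
    set B : ℝ := ((1 - a / 2) + δ) / (1 - Z) * k with hB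
    have hα : (1 : ℝ) / 2 ≤ (1 - a) - δ := by linarith
    have hA0 : 0 < A := by
      rw [hA]
      apply mul_pos _ hk0
      linarith
    have h1Z : 0 < 1 - Z := by linarith
    have hAB : A ≤ B := by
      rw [hA, hB]
      apply mul_le_mul_of_nonneg_right _ hk0.le
      rw [le_div_iff₀ h1Z]
      nlinarith
    have hΩn : n * (1 - Z) ≤ Ω := by linarith
    have hharm := WNUM.harm_upper (M.filter (fun j => 1 ≤ j ∧ j ≤ k)) A B hA0 hAB (by
      intro j hj
      rw [Finset.mem_filter, hMdef, Finset.mem_filter] at hj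
      obtain ⟨⟨_, h1, h2⟩, _, _⟩ := hj
      constructor
      · -- (1-a)n - Δ < j/k Ω ≤ j/k n
        have h3 : (j : ℝ) / k * Ω ≤ (j : ℝ) / k * n :=
          mul_le_mul_of_nonneg_left hΩ1 (by positivity)
        have h4 : ((1 - a) - δ) * n < (j : ℝ) / k * n := by
          rw [hΔ] at h1
          nlinarith
        have h5 : (1 - a) - δ < (j : ℝ) / k := lt_of_mul_lt_mul_right h4 hn0.le
        rw [lt_div_iff₀ hk0] at h5
        exact h5.le
      · have h3 : (j : ℝ) / k * (n * (1 - Z)) ≤ (j : ℝ) / k * Ω :=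
          mul_le_mul_of_nonneg_left hΩn (by positivity)
        have h4 : ((j : ℝ) / k * (1 - Z)) * n < ((1 - a / 2) + δ) * n := by
          rw [hΔ] at h2
          nlinarith
        have h5 : (j : ℝ) / k * (1 - Z) < (1 - a / 2) + δ := lt_of_mul_lt_mul_right h4 hn0.le
        rw [← lt_div_iff₀ h1Z, div_lt_iff₀ hk0] at h5
        exact h5.le)
    have hBA : B / A = ((1 - a / 2) + δ) / (1 - Z) / ((1 - a) - δ) := by
      rw [hA, hB]
      exact mul_div_mul_right _ _ hk0.ne'
    rw [hBA] at hharm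
    have hlog := WNUM.log_ineq a δ Z ha ha1 hδ0.le hδ1 hZ (by linarith)
    have hpW := WNUM.pW_lower a ha ha1 n hn0'
    have hinvA : 1 / A ≤ 4 / a * (1 / n) := by
      rw [div_mul_div_comm, mul_one, div_le_div_iff₀ hA0 (by positivity)]
      have : a * n / 4 ≤ A := by
        rw [hA]
        have h5 : (1 / 2 : ℝ) * (a / 2 * n) ≤ ((1 - a) - δ) * k :=
          mul_le_mul hα hk1 (by positivity) (by linarith)
        linarith
      linarith
    have h4k : 4 / (k : ℝ) ≤ 8 / a * (1 / n) := by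
      rw [div_mul_div_comm, mul_one, div_le_div_iff₀ hk0 (by positivity)]
      nlinarith
    have h2n : (2 : ℝ) / n = 2 * (1 / n) := by ring
    rw [h2n] at hpW
    have ha20 : 0 ≤ 20 / a := by positivity
    have e1 : (1000 + 20 / a) * (q + Z + 1 / n) =
        1000 * q + 1000 * Z + 1000 * (1 / n) + 20 / a * q + 20 / a * Z + 20 / a * (1 / n) := by
      ring
    have e2 : 4 / a * (1 / (n : ℝ)) + 8 / a * (1 / n) ≤ 20 / a * (1 / n) := by
      rw [← add_mul]
      apply mul_le_mul_of_nonneg_right _ h1n0.le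
      rw [← add_div]
      apply div_le_div_of_nonneg_right _ ha.le
      norm_num
    have e3 : 0 ≤ 20 / a * q := by positivity
    have e4 : 0 ≤ 20 / a * Z := by positivity
    rw [e1]
    have hδe : δ = q + 1 / n := hδ
    linarith

end DM852
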